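import Pool.Agent.helper80.SV.Spec

/-!
# sv:GNF: one good tuple of points suffices
-/

set_option autoImplicit false

namespace Pool.Agent.SV

open MvPolynomial Module

/-- dual functionals of a linearly independent family -/
theorem GNF_dual {W : Type} [AddCommGroup W] [Module ℂ W] {ρ : ℕ} (u : Fin ρ → W)
    (hu : LinearIndependent ℂ u) :
    ∃ φ : Fin ρ → (W →ₗ[ℂ] ℂ), ∀ i j, φ i (u j) = if i = j then 1 else 0 := by
  have h1 : ∀ i : Fin ρ, ∃ g : W →ₗ[ℂ] ℂ, g ∘ₗ (Submodule.span ℂ (Set.range u)).subtype =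
      Finsupp.lapply i ∘ₗ (hu.repr : Submodule.span ℂ (Set.range u) →ₗ[ℂ] (Fin ρ →₀ ℂ)) :=
    fun i => LinearMap.exists_extend _
  choose φ hφ using h1
  refine ⟨φ, fun i j => ?_⟩
  have h2 := LinearMap.congr_fun (hφ i) ⟨u j, Submodule.subset_span ⟨j, rfl⟩⟩
  have h3 : hu.repr ⟨u j, Submodule.subset_span ⟨j, rfl⟩⟩ = Finsupp.single j 1 :=
    hu.repr_eq_single j _ rfl
  simp only [LinearMap.comp_apply, Submodule.subtype_apply] at h2
  rw [h2]
  show (hu.repr ⟨u j, Submodule.subset_span ⟨j, rfl⟩⟩) i = _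
  rw [h3, Finsupp.single_apply]
  simp only [eq_comm]

/-- the derivatives of `f` at all points -/
noncomputable def GNF_L {k : ℕ} (n d : Fin k → ℕ) {r : ℕ} (p : Fin r → Var n → ℂ) :
    ↥(MultiHom n d) →ₗ[ℂ] (Fin r × Var n → ℂ) :=
  LinearMap.pi fun w => (evL (p w.1)) ∘ₗ (pderiv w.2).toLinearMap ∘ₗ (MultiHom n d).subtype

theorem GNF_L_apply {k : ℕ} (n d : Fin k → ℕ) {r : ℕ} (p : Fin r → Var n → ℂ)
    (f : ↥(MultiHom n d)) (w : Fin r × Var n) :
    GNF_L n d p f w = eval (p w.1) (pderiv w.2 (f : MvPolynomial (Var n) ℂ)) := by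
  simp [GNF_L]

theorem GNF_ker (hM : MHS_stmt) {k : ℕ} (n d : Fin k → ℕ) {r : ℕ} (p : Fin r → Var n → ℂ) :
    finrank ℂ ↥(Sng (Sigma.fst : Var n → Fin k) d p) =
      finrank ℂ ↥(LinearMap.ker (GNF_L n d p)) := by
  have h : Sng (Sigma.fst : Var n → Fin k) d p =
      (LinearMap.ker (GNF_L n d p)).map (MultiHom n d).subtype := by
    ext f
    rw [mem_Sng, Submodule.mem_map]
    constructor
    · rintro ⟨h1, h2⟩
      rw [← hM k n d] at h1
      refine ⟨⟨f, h1⟩, ?_, rfl⟩
      rw [LinearMap.mem_ker]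
      funext w
      rw [GNF_L_apply]
      exact h2 w.1 w.2
    · rintro ⟨g, h1, rfl⟩
      rw [← hM k n d]
      refine ⟨g.2, fun l i => ?_⟩
      rw [LinearMap.mem_ker] at h1
      have h3 := congrFun h1 (l, i)
      rw [GNF_L_apply] at h3
      exact h3
  rw [h, Submodule.finrank_map_subtype_eq]

theorem GNF (hL : LOW_stmt) (hS : SYS_stmt) (hM : MHS_stmt) : GNF_stmt := by
  intro k n d hk hd r x hx
  have hfin : Module.Finite ℂ ↥(MultiHom n d) := by
    rw [hM k n d]
    infer_instance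
  set D : ℕ := finrank ℂ ↥(MultiHom n d) with hD
  set e : ℕ := D - r * (∑ i, n i + 1) with he
  have heD : e ≤ D := Nat.sub_le _ _
  rw [GNF_ker hM] at hx
  have hrk := LinearMap.finrank_range_add_finrank_ker (GNF_L n d x)
  have hrk2 : D - e ≤ finrank ℂ ↥(LinearMap.range (GNF_L n d x)) := by omega
  -- independent vectors in the range
  let B := Module.finBasis ℂ ↥(LinearMap.range (GNF_L n d x))
  have hu : LinearIndependent ℂ (fun j : Fin (D - e) =>
      ((B (Fin.castLE hrk2 j) : ↥(LinearMap.range (GNF_L n d x))) : Fin r × Var n → ℂ)) := by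
    have h1 := (B.linearIndependent.comp (Fin.castLE hrk2) (Fin.castLE_injective hrk2)).map'
      (LinearMap.range (GNF_L n d x)).subtype (Submodule.ker_subtype _)
    exact h1
  obtain ⟨φ, hφ⟩ := GNF_dual _ hu
  have hv : ∀ j : Fin (D - e), ∃ v : ↥(MultiHom n d), GNF_L n d x v =
      ((B (Fin.castLE hrk2 j) : ↥(LinearMap.range (GNF_L n d x))) : Fin r × Var n → ℂ) :=
    fun j => (B (Fin.castLE hrk2 j)).2
  choose v hv using hv
  -- the polynomial
  let A : Matrix (Fin (D - e)) (Fin (D - e)) (MvPolynomial (Fin r × Var n) ℂ) :=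
    Matrix.of fun i j => ∑ w : Fin r × Var n, C (φ i (Pi.single w 1)) *
      rename (fun v' => (w.1, v')) (pderiv w.2 (v j : MvPolynomial (Var n) ℂ))
  have hA : ∀ p : Fin r → Var n → ℂ, eval (fun w => p w.1 w.2) A.det =
      (Matrix.of fun i j => φ i (GNF_L n d p (v j))).det := by
    intro p
    rw [RingHom.map_det]
    congr 1
    ext i j
    show eval (fun w => p w.1 w.2) (∑ w : Fin r × Var n, C (φ i (Pi.single w 1)) *
      rename (fun v' => (w.1, v')) (pderiv w.2 (v j : MvPolynomial (Var n) ℂ))) =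
      φ i (GNF_L n d p (v j))
    rw [map_sum]
    have h1 : GNF_L n d p (v j) = ∑ w : Fin r × Var n,
        (GNF_L n d p (v j) w) • (Pi.single w (1 : ℂ) : Fin r × Var n → ℂ) := by
      funext w'
      simp [Finset.sum_apply, Pi.single_apply]
    rw [h1, map_sum]
    refine Finset.sum_congr rfl fun w _ => ?_
    rw [map_mul, eval_C, eval_rename, map_smul, GNF_L_apply, smul_eq_mul, mul_comm]
    rfl
  refine ⟨A.det, ?_, fun p _ hp => ?_⟩
  · intro h0
    have h1 := hA x
    rw [h0, map_zero] at h1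
    have h2 : (Matrix.of fun i j => φ i (GNF_L n d x (v j))) = 1 := by
      ext i j
      show φ i (GNF_L n d x (v j)) = _
      rw [hv j, hφ i j, Matrix.one_apply]
    rw [h2, Matrix.det_one] at h1
    exact zero_ne_one h1
  · rw [hA p] at hp
    have hli : LinearIndependent ℂ (fun j => GNF_L n d p (v j)) := by
      rw [Fintype.linearIndependent_iff]
      intro g hg
      have h1 : (Matrix.of fun i j => φ i (GNF_L n d p (v j))).mulVec g = 0 := by
        funext i
        show ∑ j, φ i (GNF_L n d p (v j)) * g j = 0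
        have h2 := congrArg (φ i) hg
        rw [map_sum, map_zero] at h2
        rw [← h2]
        refine Finset.sum_congr rfl fun j _ => ?_
        rw [map_smul, smul_eq_mul, mul_comm]
      have h3 := Matrix.eq_zero_of_mulVec_eq_zero hp h1
      intro i
      rw [h3]
      rfl
    have hli2 : LinearIndependent ℂ (fun j => (⟨GNF_L n d p (v j), ⟨v j, rfl⟩⟩ :
        ↥(LinearMap.range (GNF_L n d p)))) := by
      apply LinearIndependent.of_comp (LinearMap.range (GNF_L n d p)).subtype
      exact hli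
    have h4 := hli2.fintype_card_le_finrank
    rw [Fintype.card_fin] at h4
    have hrk' := LinearMap.finrank_range_add_finrank_ker (GNF_L n d p)
    have h5 : finrank ℂ ↥(LinearMap.ker (GNF_L n d p)) ≤ e := by omega
    rw [← GNF_ker hM, ← hS k n d hk hd r p] at h5
    exact le_antisymm h5 (hL k n d hk hd r p)

end Pool.Agent.SV
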